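import Mathlib
import Pool.Agent.R359.OmegaExt2

/-!
# MP_1909e4_lc: the finite model property above the logics of finite powers of omega

There is a normal modal logic `L` without the finite model property such that `L` extends
`Log (ω ^ n, ≤)` for every `n ≥ 2`.  So for no `n ≥ 2` do all normal extensions of
`Log (ω ^ n, ≤)` have the finite model property.  `L` is the logic of one countable
partially ordered frame: the infinite descending Rieger-Nishimura ladder with a greatest
point added, below which the poset `{r, a₁ < a₂ < a₃, b}` is placed.
-/

namespace Pool.Agent.Results.MP_1909e4_lc.ExtensionWithoutFMP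

open Pool.Agent.R359.OmegaExt

theorem result :
    ∃ L : Set Form, IsNormal L ∧ (∀ n : ℕ, 2 ≤ n → Log (powLe n) ⊆ L) ∧ ¬ HasFMP L :=
  ⟨Log le, isNormal_log le, fun _ hn => log_powLe_subset hn, not_hasFMP⟩

end Pool.Agent.Results.MP_1909e4_lc.ExtensionWithoutFMP
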